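import Mathlib
import Pool.Agent.H27.SigmaDisc
import Pool.Agent.H27.ScatteredCp

set_option autoImplicit false

open Topology

namespace Pool.Agent.Results.MP_874bf8_gt.SigmaDiscreteness

universe u v w

/-- `C_p(K)`: the continuous real-valued functions on `K`, with the topology of pointwise
convergence, i.e. as a subspace of the product `K → ℝ`. -/
abbrev Cp (K : Type v) [TopologicalSpace K] : Type v := {f : K → ℝ // Continuous f}

/-- `X` is homeomorphic to a subspace of `C_p(K)` for some compact Hausdorff space `K`. -/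
def EberleinGrothendieck (X : Type u) [TopologicalSpace X] : Prop :=
  ∃ (K : Type v) (_ : TopologicalSpace K) (_ : CompactSpace K) (_ : T2Space K) (S : Set (Cp K)),
    Nonempty (X ≃ₜ S)

/-- Every nonempty subspace of `X` has an isolated point. -/
def Scattered (X : Type u) [TopologicalSpace X] : Prop :=
  ∀ S : Set X, S.Nonempty → ∃ x : S, IsOpen ({x} : Set S)

/-- `e : X → Y` is a Hausdorff compactification of `X`: `Y` is compact Hausdorff and `e` is
a homeomorphism of `X` onto a dense subspace of `Y`. -/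
structure IsCompactification {X : Type u} {Y : Type w} [TopologicalSpace X] [TopologicalSpace Y]
    (e : X → Y) : Prop where
  /-- compact -/
  compact : CompactSpace Y
  /-- Hausdorff -/
  hausdorff : T2Space Y
  /-- homeomorphic onto the image -/
  embedding : IsEmbedding e
  /-- dense image -/
  dense : DenseRange e

/-- `X` is a `G_δ` subset of some Hausdorff compactification of `X`. -/
def CechComplete (X : Type u) [TopologicalSpace X] : Prop :=
  ∃ (Y : Type w) (_ : TopologicalSpace Y) (e : X → Y), IsCompactification e ∧ IsGδ (Set.range e)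

/-- `X` is a countable union of discrete subspaces. -/
def SigmaDiscrete (X : Type u) [TopologicalSpace X] : Prop :=
  ∃ D : ℕ → Set X, (⋃ n, D n) = Set.univ ∧ ∀ n, DiscreteTopology (D n)

private theorem core {X K Y : Type u} [TopologicalSpace X] [TopologicalSpace K]
    [CompactSpace K] [TopologicalSpace Y] [CompactSpace Y] [T2Space Y]
    (f : X → (K → ℝ)) (hf : IsEmbedding f) (hfc : ∀ x, Continuous (f x))
    (e : X → Y) (he : IsEmbedding e) (hGδ : IsGδ (Set.range e))
    (hsc : ∀ S : Set X, S.Nonempty → ∃ x ∈ S, ∃ U : Set X, IsOpen U ∧ U ∩ S = {x}) :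
    ∃ D : ℕ → Set X, (⋃ n, D n) = Set.univ ∧
      ∀ n, ∀ x ∈ D n, ∃ U : Set X, IsOpen U ∧ U ∩ D n = {x} := by
  obtain ⟨ε, hε0, hε⟩ := Pool.Agent.H27.ScatteredCp.exists_eps f hf hsc
  obtain ⟨G, hG, hGe⟩ := isGδ_iff_eq_iInter_nat.1 hGδ
  obtain ⟨D, hD1, hD2⟩ := Pool.Agent.H27.SigmaDisc.closed_sigmaDiscrete e he G hG hGe.symm
    (Pool.Agent.H27.ScatteredCp.H f ε)
    (Pool.Agent.H27.ScatteredCp.H_countable f hfc ε hε)
    (Pool.Agent.H27.ScatteredCp.H_closure f hf hfc ε hε0) Set.univ isClosed_univ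
  exact ⟨D, Set.eq_univ_of_univ_subset hD1, hD2⟩

/-- Every Eberlein-Grothendieck space that is Cech-complete and scattered is `σ`-discrete. -/
theorem result (X : Type u) [TopologicalSpace X] (hEG : EberleinGrothendieck.{u, v} X)
    (hC : CechComplete.{u, w} X) (hS : Scattered X) : SigmaDiscrete X := by
  obtain ⟨K, _, _, _, S, ⟨φ⟩⟩ := hEG
  obtain ⟨Y, _, e, ⟨hc, ht, he, -⟩, hGδ⟩ := hC
  have hφ : IsEmbedding (fun x : X => ((φ x).1.1 : K → ℝ)) :=
    IsEmbedding.subtypeVal.comp (IsEmbedding.subtypeVal.comp φ.isEmbedding)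
  let dX : ULift.{max v w} X ≃ₜ X := Homeomorph.ulift
  let dY : ULift.{max u v} Y ≃ₜ Y := Homeomorph.ulift
  let f' : ULift.{max v w} X → (ULift.{max u w} K → ℝ) := fun x k => (φ x.down).1.1 k.down
  have hf'c : ∀ x, Continuous (f' x) := fun x => (φ x.down).1.2.comp continuous_uliftDown
  have hf' : IsEmbedding f' := by
    have hr : Continuous (fun (g : ULift.{max u w} K → ℝ) (k : K) => g (ULift.up k)) :=
      continuous_pi fun k => continuous_apply (ULift.up k)
    refine IsEmbedding.of_comp (continuous_pi fun k => ?_) hr ?_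
    · exact (continuous_apply k.down).comp (hφ.continuous.comp dX.continuous)
    · exact hφ.comp dX.isEmbedding
  let e' : ULift.{max v w} X → ULift.{max u v} Y := fun x => ULift.up (e x.down)
  have he' : IsEmbedding e' := dY.symm.isEmbedding.comp (he.comp dX.isEmbedding)
  have hG' : IsGδ (Set.range e') := by
    obtain ⟨G, hG, hGe⟩ := isGδ_iff_eq_iInter_nat.1 hGδ
    refine isGδ_iff_eq_iInter_nat.2 ⟨fun n => dY ⁻¹' G n, fun n => (hG n).preimage dY.continuous,
      ?_⟩
    rw [← Set.preimage_iInter, ← hGe]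
    ext y
    constructor
    · rintro ⟨x, rfl⟩
      exact ⟨x.down, rfl⟩
    · rintro ⟨x, hx⟩
      exact ⟨ULift.up x, by
        apply dY.injective
        exact hx⟩
  have hsc : ∀ S : Set (ULift.{max v w} X), S.Nonempty →
      ∃ x ∈ S, ∃ U : Set (ULift.{max v w} X), IsOpen U ∧ U ∩ S = {x} := by
    intro A hA
    obtain ⟨a, ha⟩ := hA
    obtain ⟨⟨x, hx⟩, hxo⟩ := hS (dX.symm ⁻¹' A) ⟨a.down, ha⟩
    obtain ⟨U, hU, hUx⟩ := isOpen_induced_iff.1 hxo
    refine ⟨ULift.up x, hx, dX ⁻¹' U, hU.preimage dX.continuous, ?_⟩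
    ext y
    constructor
    · rintro ⟨hy1, hy2⟩
      have : (⟨y.down, hy2⟩ : dX.symm ⁻¹' A) ∈ ({⟨x, hx⟩} : Set (dX.symm ⁻¹' A)) := by
        rw [← hUx]
        exact hy1
      have h2 := congrArg Subtype.val (Set.mem_singleton_iff.1 this)
      exact Set.mem_singleton_iff.2 (dX.injective h2)
    · intro hy
      rw [Set.mem_singleton_iff.1 hy]
      refine ⟨?_, hx⟩
      have : (⟨x, hx⟩ : dX.symm ⁻¹' A) ∈ (Subtype.val ⁻¹' U : Set (dX.symm ⁻¹' A)) := by
        rw [hUx]
        exact Set.mem_singleton _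
      exact this
  obtain ⟨D, hD1, hD2⟩ := core f' hf' hf'c e' he' hG' hsc
  refine ⟨fun n => dX.symm ⁻¹' D n, ?_, fun n => ?_⟩
  · rw [← Set.preimage_iUnion, hD1, Set.preimage_univ]
  · rw [discreteTopology_iff_isOpen_singleton]
    rintro ⟨x, hx⟩
    obtain ⟨U, hU, hUx⟩ := hD2 n (dX.symm x) hx
    refine isOpen_induced_iff.2 ⟨dX.symm ⁻¹' U, hU.preimage dX.symm.continuous, ?_⟩
    ext ⟨y, hy⟩
    simp only [Set.mem_preimage, Set.mem_singleton_iff, Subtype.mk.injEq]
    constructor
    · intro hyU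
      have : dX.symm y ∈ ({dX.symm x} : Set _) := by
        rw [← hUx]
        exact ⟨hyU, hy⟩
      exact dX.symm.injective (Set.mem_singleton_iff.1 this)
    · intro hyx
      have : dX.symm y ∈ U ∩ D n := by
        rw [hUx, hyx]
        exact Set.mem_singleton _
      exact this.1

end Pool.Agent.Results.MP_874bf8_gt.SigmaDiscreteness
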